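import Pool.Agent.Results.MP_162c7e_co.SevenModEight

set_option autoImplicit false

/-!
Arrays `A_r^*` exist for every order `r = 2 ^ k + 1`: the residues in their natural order
`2, 3, ..., r - 2` have the required property, because the numbers `i (i + 1) / 2` with
`0 ≤ i < 2 ^ k` are pairwise distinct modulo `2 ^ k`.
-/

namespace Pool.Agent.Results.MP_162c7e_co.PowersOfTwoPlusOne

open Pool.Agent.Results.MP_162c7e_co.SevenModEight

theorem odd_coprime (N : ℕ) (a : ℤ) (ha : Odd a) : IsCoprime ((2 : ℤ) ^ N) a := by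
  obtain ⟨m, rfl⟩ := ha
  exact IsCoprime.pow_left ⟨-m, 1, by ring⟩

theorem key (N : ℕ) (a b : ℤ) (hab : Odd (a + b)) (h : (2 : ℤ) ^ N ∣ a * b) :
    (2 : ℤ) ^ N ∣ a ∨ (2 : ℤ) ^ N ∣ b := by
  rcases Int.even_or_odd a with ha | ha
  · have hb : Odd b := by
      rcases Int.even_or_odd b with hb | hb
      · exact absurd hab (Int.not_odd_iff_even.2 (ha.add hb))
      · exact hb
    exact Or.inl ((odd_coprime N b hb).dvd_of_dvd_mul_right h)
  · exact Or.inr ((odd_coprime N a ha).dvd_of_dvd_mul_left h)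

/-- the partial sums of `2, 3, 4, ...` -/
def c (i : ℕ) : ℤ := (i : ℤ) * (i + 3) / 2

theorem two_c (i : ℕ) : 2 * c i = (i : ℤ) * (i + 3) := by
  have h : (2 : ℤ) ∣ (i : ℤ) * (i + 3) := by
    rcases Int.even_or_odd (i : ℤ) with ⟨m, hm⟩ | ⟨m, hm⟩
    · exact ⟨m * (i + 3), by rw [hm]; ring⟩
    · exact ⟨i * (m + 2), by rw [hm]; ring⟩
  rw [c, Int.mul_ediv_cancel' h]

theorem small {N : ℕ} {x : ℤ} (h : (2 : ℤ) ^ N ∣ x) (h1 : -(2 : ℤ) ^ N < x) (h2 : x < 2 ^ N) :
    x = 0 := by
  obtain ⟨t, rfl⟩ := h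
  have hp : (0 : ℤ) < 2 ^ N := by positivity
  have h3 : t < 1 := by
    by_contra h
    push Not at h
    nlinarith
  have h4 : -1 < t := by
    by_contra h
    push Not at h
    nlinarith
  have : t = 0 := by omega
  rw [this, mul_zero]

theorem good (k : ℕ) (hk : 2 ≤ k) : Good (2 ^ k + 1) := by
  have h4 : 4 ≤ 2 ^ k := by
    calc 4 = 2 ^ 2 := by norm_num
      _ ≤ 2 ^ k := Nat.pow_le_pow_right (by norm_num) hk
  have hcast : (((2 ^ k + 1 - 1 : ℕ) : ℤ)) = (2 : ℤ) ^ k := by
    rw [Nat.add_sub_cancel]; push_cast; rfl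
  have hpow : (2 : ℤ) ^ (k + 1) = 2 * 2 ^ k := by ring
  have hz : ((2 ^ k : ℕ) : ℤ) = (2 : ℤ) ^ k := by push_cast; rfl
  refine good_of_seq (2 ^ k + 1) (by omega) c ?_ ?_ ?_
  · intro i j hi hj h
    rw [hcast] at h
    have h1 : (2 : ℤ) ^ (k + 1) ∣ ((i : ℤ) - j) * ((i : ℤ) + j + 3) := by
      rw [hpow]
      have h2 := mul_dvd_mul_left 2 h
      have h3 : 2 * (c i - c j) = ((i : ℤ) - j) * ((i : ℤ) + j + 3) := by
        have e1 := two_c i
        have e2 := two_c j
        linear_combination e1 - e2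
      rwa [h3] at h2
    rcases key _ _ _ ⟨(i : ℤ) + 1, by ring⟩ h1 with h2 | h2
    · have h5 := small h2 (by omega) (by omega)
      omega
    · have h5 := small h2 (by omega) (by omega)
      omega
  · intro i j hi hj h
    rw [hcast] at h
    have h1 : (2 : ℤ) ^ (k + 1) ∣ ((i : ℤ) - j) * ((i : ℤ) + j + 1) := by
      rw [hpow]
      have h2 := mul_dvd_mul_left 2 h
      have h3 : 2 * (c i - i - (c j - j)) = ((i : ℤ) - j) * ((i : ℤ) + j + 1) := by
        have e1 := two_c i
        have e2 := two_c j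
        linear_combination e1 - e2
      rwa [h3] at h2
    rcases key _ _ _ ⟨(i : ℤ), by ring⟩ h1 with h2 | h2
    · have h5 := small h2 (by omega) (by omega)
      omega
    · have h5 := small h2 (by omega) (by omega)
      omega
  · intro i j hi hj h
    rw [hcast] at h
    have h3 : c (i + 1) - c i - (c (j + 1) - c j) = (i : ℤ) - j := by
      have e1 := two_c i
      have e2 := two_c j
      have e3 := two_c (i + 1)
      have e4 := two_c (j + 1)
      push_cast at e3 e4
      linarith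
    rw [h3] at h
    have h5 := small h (by omega) (by omega)
    omega

theorem not_primePow (j : ℕ) : ¬ IsPrimePow (2 ^ (10 * j + 5) + 1) := by
  have h33 : 33 ∣ 2 ^ (10 * j + 5) + 1 := by
    induction j with
    | zero => norm_num
    | succ j ih =>
      have e : 2 ^ (10 * (j + 1) + 5) = 1024 * 2 ^ (10 * j + 5) := by
        rw [show 10 * (j + 1) + 5 = 10 + (10 * j + 5) by ring, pow_add]; norm_num
      omega
  rintro ⟨p, a, hp, ha, hpa⟩
  have hp' := Nat.prime_iff.2 hp
  have h3 : 3 ∣ p ^ a := by rw [hpa]; exact (by norm_num : 3 ∣ 33).trans h33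
  have h11 : 11 ∣ p ^ a := by rw [hpa]; exact (by norm_num : 11 ∣ 33).trans h33
  have e3 : 3 = p := (Nat.prime_dvd_prime_iff_eq Nat.prime_three hp').1
    (Nat.prime_three.dvd_of_dvd_pow h3)
  have e11 : 11 = p := (Nat.prime_dvd_prime_iff_eq (by norm_num) hp').1
    ((by norm_num : Nat.Prime 11).dvd_of_dvd_pow h11)
  omega

/-- Keedwell arrays `A_r^*` exist for every order `r = 2 ^ k + 1`, `k ≥ 2`; infinitely many of these
orders are neither prime powers nor congruent to `7` modulo `8`. -/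
theorem result : (∀ k : ℕ, 2 ≤ k → Good (2 ^ k + 1)) ∧
    ∀ j : ℕ, ¬ IsPrimePow (2 ^ (10 * j + 5) + 1) ∧ (2 ^ (10 * j + 5) + 1) % 8 = 1 := by
  refine ⟨good, fun j => ⟨not_primePow j, ?_⟩⟩
  rw [show 10 * j + 5 = 3 + (10 * j + 2) by ring, pow_add]
  norm_num

end Pool.Agent.Results.MP_162c7e_co.PowersOfTwoPlusOne
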